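import Pool.Agent.Q255.L2.StmY
import Pool.Agent.Q162.L2.GMBa
import Pool.Agent.Q162.L2.GMBc

/-!
# Project L2Y (helper255), job YB: the counts on low horocycles
-/

set_option autoImplicit false

namespace Pool.Agent.Q68.L2Y

open Finset
open Pool.Agent.Q255.L2 Pool.Agent.Q255.L2Y Pool.Agent.Q162.L2.GMB

/-- larger boxes -/
theorem UU_mono (k₁ k₂ X X' : ℕ) (hX : X ≤ X') (h₁ h₂ : ℤ) (w₁ : Fin k₁ → ℤ → ℝ) (w₂ : Fin k₂ → ℤ → ℝ)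
    (hw₁ : ∀ j m, 0 ≤ w₁ j m) (hw₂ : ∀ j m, 0 ≤ w₂ j m) :
    UU k₁ k₂ X h₁ h₂ w₁ w₂ ≤ UU k₁ k₂ X' h₁ h₂ w₁ w₂ := by
  classical
  unfold UU
  refine Finset.sum_le_sum_of_subset_of_nonneg ?_ fun m _ _ =>
    mul_nonneg (Finset.prod_nonneg fun j _ => hw₁ _ _) (Finset.prod_nonneg fun j _ => hw₂ _ _)
  intro m hm
  rw [Finset.mem_filter, Finset.mem_product, Fintype.mem_piFinset, Fintype.mem_piFinset] at hm ⊢
  obtain ⟨⟨ha, hb⟩, hc⟩ := hm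
  have hsub : ∀ z : ℤ, z ∈ Bx X → z ∈ Bx X' := by
    intro z hz
    rw [mem_Bx, Finset.mem_Icc] at hz ⊢
    exact ⟨hz.1, hz.2.1, hz.2.2.trans hX⟩
  exact ⟨⟨fun i => hsub _ (ha i), fun i => hsub _ (hb i)⟩, hc⟩

/-- the moment bounds at the scale `4^J` -/
theorem m8Y {ι : Type} (a : ι → ℕ → ℝ) (hC : Coef (fun _ => (1 : ℝ)) a) (ε : ℝ) (hε : 0 < ε) :
    ∃ K : ℝ, 1 ≤ K ∧ ∀ (i : ι) (J : ℕ) (Y : ℝ), Y ≤ 2 ^ (2 * J) →
      M8 (K * P2 (2 * ε * J)) (4 * Y) (a i) := by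
  have hC' : Coef (fun p : ι × ℕ => (2 : ℝ) ^ p.2) (fun p => a p.1) := by
    have hle : ∀ (C z t w ε : ℝ), 0 ≤ z → 1 ≤ t → 0 ≤ w → 0 < ε →
        C * (z * 1) ^ ε * w ≤ |C| * (z * t) ^ ε * w := by
      intro C z t w ε hz ht hw hε
      apply mul_le_mul_of_nonneg_right _ hw
      apply mul_le_mul (le_abs_self C) _ (by positivity) (abs_nonneg C)
      exact Real.rpow_le_rpow (by linarith) (mul_le_mul_of_nonneg_left ht hz) hε.le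
    constructor
    · intro ε hε
      obtain ⟨C, hC1⟩ := hC.1 ε hε
      refine ⟨|C|, fun p N hN => (hC1 p.1 N hN).trans ?_⟩
      exact hle C N _ N ε (Nat.cast_nonneg _) (one_le_pow₀ (by norm_num)) (Nat.cast_nonneg _) hε
    · intro ε hε
      obtain ⟨C, hC1⟩ := hC.2 ε hε
      refine ⟨|C|, fun p R S hR hS => (hC1 p.1 R S hR hS).trans ?_⟩
      exact hle C (R * S) _ (R * S) ε (by positivity) (one_le_pow₀ (by norm_num)) (by positivity) hε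
  obtain ⟨K, hK1, hK⟩ := m8_of (fun p : ι × ℕ => (2 : ℝ) ^ p.2) (fun p => a p.1)
    (fun p => one_le_pow₀ (by norm_num)) hC' 1 le_rfl ε hε
  refine ⟨K, hK1, fun i J Y hY => ?_⟩
  have h1 := hK (i, 2 * J) (2 * J) le_rfl
  have h2 : K * (2 : ℝ) ^ (ε * ((2 * J : ℕ) : ℝ)) = K * P2 (2 * ε * J) := by
    unfold P2
    congr 2
    push_cast
    ring
  rw [h2] at h1
  have h3 : 4 * Y ≤ 4 * 1 * (2 : ℝ) ^ (2 * J) := by linarith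
  exact ⟨fun N hN => h1.1 N (hN.trans h3), fun R S hRS => h1.2 R S (hRS.trans h3)⟩

/-- the exponents -/
theorem numY (n : ℕ) (hn : 1 ≤ n) (K c₀ c η ε : ℝ) (hK : 1 ≤ K) (hc₀ : 0 < c₀) (hc₀1 : c₀ ≤ 1 / 2)
    (hc : c₀ ≤ c) (hη : 0 < η) (hηc : η * n ≤ c₀) (hε : 2 * ε * (n + 1) = c₀ / 4)
    (N J : ℕ) (hN1 : 1 ≤ N) (hN : (N : ℝ) ≤ P2 ((1 + η) * J)) :
    (((2 ^ (2 * J) : ℕ) : ℝ)) ^ ε * (P2 (-((J : ℝ) / 2)) ^ n * (K * P2 (2 * ε * J)) ^ n *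
      (N : ℝ) ^ ((n : ℝ) / 2 - c)) ≤ K ^ n * P2 (-(c₀ / 4 * J)) := by
  have hn0 : (1 : ℝ) ≤ n := by exact_mod_cast hn
  have hJ0 : (0 : ℝ) ≤ J := Nat.cast_nonneg J
  have hN0 : (1 : ℝ) ≤ N := by exact_mod_cast hN1
  have e1 : (((2 ^ (2 * J) : ℕ) : ℝ)) ^ ε = P2 (2 * ε * J) := by
    have h1 : ((2 ^ (2 * J) : ℕ) : ℝ) = P2 ((2 * J : ℕ) : ℝ) := by
      rw [P2_nat]
      push_cast
      ring
    rw [h1, P2_rpow]
    congr 1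
    push_cast
    ring
  have e2 : (N : ℝ) ^ ((n : ℝ) / 2 - c) ≤ P2 ((1 + η) * J * ((n : ℝ) / 2 - c₀)) := by
    calc (N : ℝ) ^ ((n : ℝ) / 2 - c) ≤ (N : ℝ) ^ ((n : ℝ) / 2 - c₀) :=
          Real.rpow_le_rpow_of_exponent_le hN0 (by linarith)
      _ ≤ (P2 ((1 + η) * J)) ^ ((n : ℝ) / 2 - c₀) :=
          Real.rpow_le_rpow (by linarith) hN (by linarith)
      _ = _ := P2_rpow _ _
  have hp1 := P2_pos (-((J : ℝ) / 2))
  have hp2 := P2_pos (2 * ε * J)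
  have hK0 : 0 < K := by linarith
  calc (((2 ^ (2 * J) : ℕ) : ℝ)) ^ ε * (P2 (-((J : ℝ) / 2)) ^ n * (K * P2 (2 * ε * J)) ^ n *
      (N : ℝ) ^ ((n : ℝ) / 2 - c)) ≤ P2 (2 * ε * J) * (P2 (-((J : ℝ) / 2)) ^ n * (K * P2 (2 * ε * J)) ^ n *
      P2 ((1 + η) * J * ((n : ℝ) / 2 - c₀))) := by
        rw [e1]
        apply mul_le_mul_of_nonneg_left _ hp2.le
        apply mul_le_mul_of_nonneg_left e2
        positivity
    _ = K ^ n * (P2 (2 * ε * J) * (P2 (-((J : ℝ) / 2) * n) * P2 (2 * ε * J * n) *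
          P2 ((1 + η) * J * ((n : ℝ) / 2 - c₀)))) := by
        rw [mul_pow, P2_pow, P2_pow]
        ring
    _ = K ^ n * P2 (2 * ε * J + (-((J : ℝ) / 2) * n + 2 * ε * J * n + (1 + η) * J * ((n : ℝ) / 2 - c₀))) := by
        rw [← P2_add, ← P2_add, ← P2_add]
    _ ≤ K ^ n * P2 (-(c₀ / 4 * J)) := by
        apply mul_le_mul_of_nonneg_left _ (by positivity)
        apply P2_le
        have h1 : 2 * ε * J + (-((J : ℝ) / 2) * n + 2 * ε * J * n + (1 + η) * J * ((n : ℝ) / 2 - c₀)) =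
            (2 * ε * (n + 1) + η * n / 2 - (1 + η) * c₀) * J := by ring
        have h2 : -(c₀ / 4 * J) = (-(c₀ / 4)) * J := by ring
        rw [h1, h2, hε]
        apply mul_le_mul_of_nonneg_right _ hJ0
        have h3 : 0 ≤ η * c₀ := by positivity
        have h4 : (1 + η) * c₀ = c₀ + η * c₀ := by ring
        rw [h4]
        linarith

/-- the general bound -/
theorem genY (hWC : S_WC) {ι : Type} (a : ι → ℕ → ℝ) (hC : Coef (fun _ => (1 : ℝ)) a) (k₁ k₂ : ℕ)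
    (hk : 1 ≤ k₁ + k₂) : ∃ c₀ : ℝ, 0 < c₀ ∧ c₀ ≤ 1 / 2 ∧ ∀ η : ℝ, 0 < η → η ≤ 1 → η * (k₁ + k₂ : ℕ) ≤ c₀ →
      ∃ C : ℝ, 0 ≤ C ∧ ∀ (J X : ℕ) (i₁ : Fin k₁ → ι) (i₂ : Fin k₂ → ι) (w₁ : Fin k₁ → ℤ → ℝ)
        (w₂ : Fin k₂ → ℤ → ℝ) (h₁ h₂ : ℤ), X ≤ 2 ^ (2 * J) →
        (∀ j m, 0 ≤ w₁ j m) → (∀ j m, 0 ≤ w₂ j m) →
        (∀ j m, w₁ j m ≤ P2 (-((J : ℝ) / 2)) * |a (i₁ j) m.natAbs|) →
        (∀ j m, w₂ j m ≤ P2 (-((J : ℝ) / 2)) * |a (i₂ j) m.natAbs|) →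
        (∀ j m, P2 ((1 + η) * J) < (m.natAbs : ℝ) → w₁ j m = 0) →
        (∀ j m, P2 ((1 + η) * J) < (m.natAbs : ℝ) → w₂ j m = 0) →
          UU k₁ k₂ X h₁ h₂ w₁ w₂ ≤ C * P2 (-(c₀ / 4 * J)) := by
  have hs := fun s : (Fin k₁ → Bool) × (Fin k₂ → Bool) => hWC (Fin k₁) (Fin k₂) (sv s.1) (sv s.2) (sv_or _)
    (sv_or _) (by simpa using hk)
  choose c hc hWC' using hs
  obtain ⟨s₀, -, hs₀⟩ := Finset.exists_min_image (univ : Finset ((Fin k₁ → Bool) × (Fin k₂ → Bool))) c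
    ⟨(fun _ => true, fun _ => true), mem_univ _⟩
  obtain ⟨c₀, hc₀⟩ : ∃ c₀, c₀ = min (c s₀) (1 / 2) := ⟨_, rfl⟩
  have hc₀0 : 0 < c₀ := by
    rw [hc₀]
    exact lt_min (hc s₀) (by norm_num)
  have hc₀1 : c₀ ≤ 1 / 2 := by
    rw [hc₀]
    exact min_le_right _ _
  have hcle : ∀ s, c₀ ≤ c s := fun s => by
    rw [hc₀]
    exact (min_le_left _ _).trans (hs₀ s (mem_univ s))
  obtain ⟨n, hn⟩ : ∃ n, n = k₁ + k₂ := ⟨_, rfl⟩
  have hn1 : 1 ≤ n := by omega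
  obtain ⟨ε, hε⟩ : ∃ ε : ℝ, ε = c₀ / (8 * (n + 1)) := ⟨_, rfl⟩
  have hε0 : 0 < ε := by
    rw [hε]
    positivity
  have hε1 : 2 * ε * (n + 1) = c₀ / 4 := by
    rw [hε]
    field_simp
    norm_num
  have hs2 := fun s => hWC' s ε hε0
  choose Cs hCs0 hWC'' using hs2
  obtain ⟨KB', hKB1, hM8⟩ := m8Y a hC ε hε0
  obtain ⟨KN, hKN1, hnlog⟩ := natlog_le 1 ε le_rfl hε0
  obtain ⟨K, hK⟩ : ∃ K : ℝ, K = 4 * KB' * KN := ⟨_, rfl⟩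
  have hK1 : 1 ≤ K := by
    rw [hK]
    nlinarith
  refine ⟨c₀, hc₀0, hc₀1, fun η hη0 hη1 hηc => ?_⟩
  rw [← hn] at hηc
  refine ⟨∑ s, Cs s * K ^ n, Finset.sum_nonneg fun s _ =>
    mul_nonneg (hCs0 s) (by positivity), ?_⟩
  intro J X i₁ i₂ w₁ w₂ h₁ h₂ hX hw₁ hw₂ hu₁ hu₂ hz₁ hz₂
  refine (UU_mono k₁ k₂ X (2 ^ (2 * J)) hX h₁ h₂ w₁ w₂ hw₁ hw₂).trans ?_
  have hJ0 : (0 : ℝ) ≤ J := Nat.cast_nonneg J
  obtain ⟨Y, hY⟩ : ∃ Y, Y = P2 ((1 + η) * J) := ⟨_, rfl⟩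
  rw [← hY] at hz₁ hz₂
  have hY1 : 1 ≤ Y := by
    rw [hY]
    exact P2_ge _ (by positivity)
  have hYX : Y ≤ 2 ^ (2 * J) := by
    rw [hY, ← P2_nat]
    apply P2_le
    push_cast
    exact mul_le_mul_of_nonneg_right (by linarith) hJ0
  obtain ⟨N, hN⟩ : ∃ N, N = ⌊Y⌋₊ := ⟨_, rfl⟩
  have hN1 : 1 ≤ N := by
    rw [hN, Nat.one_le_floor_iff]
    exact hY1
  have hNY : (N : ℝ) ≤ Y := by
    rw [hN]
    exact Nat.floor_le (by linarith)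
  have hYN : Y ≤ 2 * N := by
    have h1 : Y < N + 1 := by
      rw [hN]
      exact Nat.lt_floor_add_one Y
    have h2 : (1 : ℝ) ≤ N := by exact_mod_cast hN1
    linarith
  have hNX : N ≤ 2 ^ (2 * J) := by
    have h1 : (N : ℝ) ≤ ((2 ^ (2 * J) : ℕ) : ℝ) := by
      push_cast
      exact hNY.trans hYX
    exact_mod_cast h1
  obtain ⟨bb, hbb⟩ : ∃ bb : ι → ℕ → ℝ, ∀ i m, bb i m = if (m : ℝ) ≤ Y then |a i m| else 0 := ⟨_, fun _ _ => rfl⟩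
  have hbb0 : ∀ i m, 0 ≤ bb i m := by
    intro i m
    rw [hbb]
    split_ifs
    · exact abs_nonneg _
    · exact le_rfl
  have hbbz : ∀ i m, N < m → bb i m = 0 := by
    intro i m hm
    rw [hbb, if_neg]
    intro h
    have h1 : m ≤ N := by
      rw [hN]
      exact Nat.le_floor h
    omega
  obtain ⟨σ, hσ⟩ : ∃ σ, σ = P2 (-((J : ℝ) / 2)) := ⟨_, rfl⟩
  have hσ0 : 0 < σ := by
    rw [hσ]
    exact P2_pos _
  rw [← hσ] at hu₁ hu₂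
  have hnn : ∀ i, nn N (fun m => bb i m ^ 2) ≤ (K * P2 (2 * ε * J)) ^ 2 * N := by
    intro i
    have h8 := hM8 i J Y hYX
    have hp := P2_pos (2 * ε * J)
    have h1 := nn_sq (a i) (KB' * P2 (2 * ε * J)) Y N (by positivity) hY1 h8
    have h2 := hnlog Y (2 * J) hY1 (by linarith)
    have h3 : P2 (ε * ((2 * J : ℕ) : ℝ)) = P2 (2 * ε * J) := by
      congr 1
      push_cast
      ring
    rw [h3] at h2
    have h4 : (fun m => bb i m ^ 2) = fun m : ℕ => (if (m : ℝ) ≤ Y then |a i m| else 0) ^ 2 :=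
      funext fun m => by rw [hbb]
    rw [h4]
    refine h1.trans ?_
    calc ((Nat.log 2 ⌊Y⌋₊ + 1 : ℕ) : ℝ) * (2 * (KB' * P2 (2 * ε * J)) * Y) ≤
          (KN * P2 (2 * ε * J)) * (2 * (KB' * P2 (2 * ε * J)) * (2 * N)) := by
          apply mul_le_mul h2 _ (by positivity) (by positivity)
          exact mul_le_mul_of_nonneg_left hYN (by positivity)
      _ = K * (P2 (2 * ε * J) ^ 2 * N) := by
          rw [hK]
          ring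
      _ ≤ K ^ 2 * (P2 (2 * ε * J) ^ 2 * N) := by
          apply mul_le_mul_of_nonneg_right _ (by positivity)
          nlinarith
      _ = (K * P2 (2 * ε * J)) ^ 2 * N := by ring
  have hg : ∀ (i : ι) (m : ℤ) (x : ℝ), 0 ≤ x → x ≤ σ * |a i m.natAbs| →
      (Y < (m.natAbs : ℝ) → x = 0) → x ≤ σ * bb i m.natAbs := by
    intro i m x hx hx1 hx2
    rw [hbb]
    split_ifs with h
    · exact hx1
    · rw [hx2 (not_le.1 h), mul_zero]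
  have hUU := UU_le k₁ k₂ (2 ^ (2 * J)) h₁ h₂ w₁ w₂ (fun j m => σ * bb (i₁ j) m) (fun j m => σ * bb (i₂ j) m)
    hw₁ hw₂ (fun j m => hg (i₁ j) m _ (hw₁ j m) (hu₁ j m) (hz₁ j m))
    (fun j m => hg (i₂ j) m _ (hw₂ j m) (hu₂ j m) (hz₂ j m))
  refine hUU.trans ?_
  rw [Finset.sum_mul]
  refine Finset.sum_le_sum fun s _ => ?_
  obtain ⟨Λ, hΛ⟩ : ∃ Λ : ℝ, Λ = 1 + ∑ j, nn (2 ^ (2 * J)) (fun m => σ * bb (i₁ j) m) +
      ∑ j, nn (2 ^ (2 * J)) (fun m => σ * bb (i₂ j) m) := ⟨_, rfl⟩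
  have hn1s : 0 ≤ ∑ j, nn (2 ^ (2 * J)) (fun m => σ * bb (i₁ j) m) := Finset.sum_nonneg fun j _ => nn_nonneg _ _
  have hn2s : 0 ≤ ∑ j, nn (2 ^ (2 * J)) (fun m => σ * bb (i₂ j) m) := Finset.sum_nonneg fun j _ => nn_nonneg _ _
  have hΛ1 : 1 ≤ Λ := by
    rw [hΛ]
    linarith
  have hΛ2 : Λ ≤ Λ ^ 2 := by nlinarith
  have hΛa : ∀ j, nn (2 ^ (2 * J)) (fun m => σ * bb (i₁ j) m) ≤ Λ ^ 2 := by
    intro j
    have h1 := Finset.single_le_sum (f := fun j => nn (2 ^ (2 * J)) (fun m => σ * bb (i₁ j) m))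
      (fun j _ => nn_nonneg _ _) (mem_univ j)
    refine le_trans h1 (le_trans ?_ hΛ2)
    rw [hΛ]
    linarith
  have hΛb : ∀ j, nn (2 ^ (2 * J)) (fun m => σ * bb (i₂ j) m) ≤ Λ ^ 2 := by
    intro j
    have h1 := Finset.single_le_sum (f := fun j => nn (2 ^ (2 * J)) (fun m => σ * bb (i₂ j) m))
      (fun j _ => nn_nonneg _ _) (mem_univ j)
    refine le_trans h1 (le_trans ?_ hΛ2)
    rw [hΛ]
    linarith
  have hz0 : nn (2 ^ (2 * J)) (fun _ => (0 : ℝ)) ≤ (0 : ℝ) ^ 2 := by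
    unfold nn
    simp
  have hP1 : 1 ≤ P2 (2 * ε * J) := P2_ge _ (by positivity)
  have key := hWC'' s N (2 ^ (2 * J)) h₁ h₂ (fun j m => σ * bb (i₁ j) m) (fun _ _ => 0) (fun j m => bb (i₁ j) m)
    (fun j m => σ * bb (i₂ j) m) (fun _ _ => 0) (fun j m => bb (i₂ j) m) σ (K * P2 (2 * ε * J)) 0 Λ
    hN1 hNX hσ0.le (by nlinarith) le_rfl (by linarith)
    (fun j m => ⟨mul_nonneg hσ0.le (hbb0 _ _), le_rfl, hbb0 _ _, le_rfl⟩)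
    (fun j m => ⟨mul_nonneg hσ0.le (hbb0 _ _), le_rfl, hbb0 _ _, le_rfl⟩)
    (fun j m hm => ⟨by rw [hbbz _ _ hm, mul_zero], hbbz _ _ hm⟩)
    (fun j m hm => ⟨by rw [hbbz _ _ hm, mul_zero], hbbz _ _ hm⟩)
    (fun j m hm => rfl) (fun j m hm => rfl)
    (fun j => ⟨hnn _, hz0, hΛa j⟩) (fun j => ⟨hnn _, hz0, hΛb j⟩)
  have hfin := numY n hn1 K c₀ (c s) η ε hK1 hc₀0 hc₀1 (hcle s) hη0 hηc hε1 N J hN1 (by rw [← hY]; exact hNY)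
  rw [← hσ] at hfin
  have key2 : NS k₁ k₂ (2 ^ (2 * J)) h₁ h₂ (fun j m => σ * bb (i₁ j) m) (fun j m => σ * bb (i₂ j) m) s ≤
      Cs s * ((((2 ^ (2 * J) : ℕ) : ℝ)) ^ ε * (σ ^ n * (K * P2 (2 * ε * J)) ^ n * (N : ℝ) ^ ((n : ℝ) / 2 - c s))) := by
    rw [Fintype.card_fin, Fintype.card_fin, ← hn, zero_mul, add_zero, mul_assoc] at key
    have hcast : ((k₁ : ℝ) + (k₂ : ℝ)) = (n : ℝ) := by
      rw [hn]
      push_cast
      ring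
    rw [hcast] at key
    simp only [add_zero] at key
    unfold NS
    exact key
  refine key2.trans ?_
  rw [mul_assoc (Cs s)]
  exact mul_le_mul_of_nonneg_left hfin (hCs0 s)

theorem yb (h : S_WC) : Pool.Agent.Q255.L2Y.S_YB := by
  intro ι a hC k hk
  obtain ⟨c₁, hc₁, hc₁', H₁⟩ := genY h a hC k 0 (by omega)
  obtain ⟨c₂, hc₂, hc₂', H₂⟩ := genY h a hC k k (by omega)
  have hk0 : (1 : ℝ) ≤ k := by exact_mod_cast hk
  obtain ⟨d, hd⟩ : ∃ d, d = min c₁ c₂ := ⟨_, rfl⟩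
  have hd0 : 0 < d := by
    rw [hd]
    exact lt_min hc₁ hc₂
  have hd1 : d ≤ c₁ := by
    rw [hd]
    exact min_le_left _ _
  have hd2 : d ≤ c₂ := by
    rw [hd]
    exact min_le_right _ _
  obtain ⟨η, hη⟩ : ∃ η, η = d / (2 * k) := ⟨_, rfl⟩
  have hη0 : 0 < η := by
    rw [hη]
    positivity
  have hηk : η * (2 * k) = d := by
    rw [hη]
    field_simp
  have hη1 : η ≤ 1 := by nlinarith
  obtain ⟨C₁, hC₁, H₁'⟩ := H₁ η hη0 hη1 (by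
    push_cast
    nlinarith)
  obtain ⟨C₂, hC₂, H₂'⟩ := H₂ η hη0 hη1 (by
    push_cast
    nlinarith)
  refine ⟨η, d / 4, C₁ + C₂, hη0, hη1, by positivity, by linarith, ?_⟩
  intro J X i β hh hβ hβ0 hX
  have hJ : (0 : ℝ) ≤ J := Nat.cast_nonneg J
  have hP : ∀ c', d ≤ c' → P2 (-(c' / 4 * J)) ≤ (2 : ℝ) ^ (-(d / 4 * J)) := by
    intro c' hc'
    have h4 : P2 (-(c' / 4 * J)) ≤ P2 (-(d / 4 * J)) := by
      apply P2_le
      have := mul_le_mul_of_nonneg_right (show d / 4 ≤ c' / 4 by linarith) hJ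
      linarith
    exact h4
  have hp0 : (0 : ℝ) < (2 : ℝ) ^ (-(d / 4 * J)) := by positivity
  have hz : ∀ (j : Fin k) (m : ℤ), P2 ((1 + η) * J) < (m.natAbs : ℝ) → ‖β j m‖ = 0 := by
    intro j m hm
    rw [hβ0 j m hm, norm_zero]
  constructor
  · refine (U1_le k X hh β).trans ?_
    have h5 := H₁' J X i (fun j => j.elim0) (fun j m => ‖β j m‖) (fun _ _ => 1) hh 0 hX
      (fun j m => norm_nonneg _) (fun j => j.elim0) hβ (fun j => j.elim0) hz (fun j => j.elim0)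
    refine h5.trans ?_
    calc C₁ * P2 (-(c₁ / 4 * J)) ≤ C₁ * (2 : ℝ) ^ (-(d / 4 * J)) :=
          mul_le_mul_of_nonneg_left (hP c₁ hd1) hC₁
      _ ≤ (C₁ + C₂) * (2 : ℝ) ^ (-(d / 4 * J)) := mul_le_mul_of_nonneg_right (by linarith) hp0.le
  · rw [U2_eq]
    have h5 := H₂' J X i i (fun j m => ‖β j m‖) (fun j m => ‖β j m‖) hh hh hX
      (fun j m => norm_nonneg _) (fun j m => norm_nonneg _) hβ hβ hz hz
    refine h5.trans ?_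
    calc C₂ * P2 (-(c₂ / 4 * J)) ≤ C₂ * (2 : ℝ) ^ (-(d / 4 * J)) :=
          mul_le_mul_of_nonneg_left (hP c₂ hd2) hC₂
      _ ≤ (C₁ + C₂) * (2 : ℝ) ^ (-(d / 4 * J)) := mul_le_mul_of_nonneg_right (by linarith) hp0.le

end Pool.Agent.Q68.L2Y
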