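import Pool.Agent.Q255.L2.StmY

/-! # Project L2Y (helper255), job YK: the function `K_{iT}(2πu)` is an admissible weight -/

set_option autoImplicit false

namespace Pool.Agent.Q68.L2Y

open Filter Topology
open Pool.Agent.Q255.L2 Pool.Agent.Q255.L2Y

theorem der_bd {f : ℝ → ℝ} {f' u K : ℝ} (hu : 0 < u) (hK : 0 ≤ K) (hd : HasDerivAt f f' u)
    (h : ∀ u', 0 < u' → |f u - f u'| ≤ K * |Real.log u - Real.log u'|) : |f'| ≤ K / u := by
  have e : Real.exp (Real.log u) = u := Real.exp_log hu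
  have h1 : HasDerivAt (fun t => f (Real.exp t)) (f' * Real.exp (Real.log u)) (Real.log u) := by
    refine HasDerivAt.comp (Real.log u) ?_ (Real.hasDerivAt_exp _)
    rw [e]
    exact hd
  have h2 : ‖deriv (fun t => f (Real.exp t)) (Real.log u)‖ ≤ K := by
    refine norm_deriv_le_of_lip' hK (Eventually.of_forall fun t => ?_)
    have h3 := h (Real.exp t) (Real.exp_pos t)
    rw [Real.log_exp] at h3
    rw [Real.norm_eq_abs, Real.norm_eq_abs, e, abs_sub_comm, abs_sub_comm t]
    exact h3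
  rw [h1.deriv, e, norm_mul, Real.norm_eq_abs, Real.norm_eq_abs, abs_of_pos hu] at h2
  rw [le_div_iff₀ hu]
  exact h2

/-- **YK** -/
theorem yk (h1 : S_KODE) (h2 : S_KBB) : S_YK := by
  intro T hT
  obtain ⟨C1, hC1, hB⟩ := h2
  obtain ⟨hB1, hB2⟩ := hB T hT
  obtain ⟨hO, hO2, C2, hC2, hO3⟩ := h1
  have hT0 : 0 ≤ T := by linarith
  have hπ := Real.pi_pos
  have hE1 : 1 ≤ Real.exp (Real.pi * T) := Real.one_le_exp (by positivity)
  have hE2 : 1 ≤ Real.exp (Real.pi * T / 2) := Real.one_le_exp (by positivity)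
  have hs1 : 0 ≤ √C1 := Real.sqrt_nonneg _
  have hs2 : 0 ≤ C1 * √T := mul_nonneg hC1 (Real.sqrt_nonneg _)
  have hK : ∀ w, 0 < w → |KB T w| ≤ √C1 := by
    intro w hw
    have h3 := hB1 w hw
    have h4 : C1 / (1 + |T - w|) ≤ C1 := div_le_self hC1 (by linarith [abs_nonneg (T - w)])
    have h5 : KB T w ^ 2 ≤ Real.exp (Real.pi * T) * KB T w ^ 2 :=
      le_mul_of_one_le_left (sq_nonneg _) hE1
    exact Real.abs_le_sqrt (h5.trans (h3.trans h4))
  have hK1 : ∀ w, 0 < w → |KB1 T w| ≤ C1 * √T / w := by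
    intro w hw
    refine der_bd hw hs2 (hO T w hw).1 fun w' hw' => ?_
    have h3 := hB2 w w' hw hw'
    exact (le_mul_of_one_le_left (abs_nonneg _) hE2).trans h3
  have hlow : ∀ w, w ≤ 1 → 1 ≤ 3 * Real.exp (-(w / 2)) := by
    intro w hw
    have := Real.add_one_le_exp (-(w / 2))
    linarith
  refine ⟨3 * √C1 + 2 + 3 * (C1 * √T) + C2, Real.pi, hπ, fun u hu => ?_⟩
  obtain ⟨w, hw⟩ : ∃ w, w = 2 * Real.pi * u := ⟨_, rfl⟩
  have hw0 : 0 < w := by rw [hw]; positivity
  have hπu : Real.pi * u = w / 2 := by rw [hw]; ring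
  rw [hπu]
  have hx0 : 0 < Real.exp (-(w / 2)) := Real.exp_pos _
  refine ⟨?_, ?_, ?_⟩
  · have h3 : HasDerivAt (fun u : ℝ => 2 * Real.pi * u) (2 * Real.pi) u := by
      have h4 := (hasDerivAt_id u).const_mul (2 * Real.pi)
      rwa [mul_one] at h4
    have h5 : HasDerivAt (KB T) (KB1 T (2 * Real.pi * u)) (2 * Real.pi * u) := by
      rw [← hw]
      exact (hO T w hw0).1
    have h6 := HasDerivAt.comp u h5 h3
    have e : KB1 T (2 * Real.pi * u) * (2 * Real.pi) = 2 * Real.pi * KB1 T (2 * Real.pi * u) := by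
      ring
    rw [e] at h6
    exact h6
  · beta_reduce
    rw [← hw]
    rcases le_or_gt w 1 with h | h
    · have h3 := hK w hw0
      have h4 := hlow w h
      have h5 : √C1 ≤ √C1 * (3 * Real.exp (-(w / 2))) := le_mul_of_one_le_right hs1 h4
      have h6 : 0 ≤ (2 + 3 * (C1 * √T) + C2) * Real.exp (-(w / 2)) := by positivity
      nlinarith [h3, h5, h6]
    · have h3 := hO2 T w hw0
      have h4 : √(Real.pi / (2 * w)) ≤ 2 := by
        rw [Real.sqrt_le_left (by norm_num)]
        rw [div_le_iff₀ (by linarith)]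
        nlinarith [Real.pi_lt_four]
      have h5 : Real.exp (-w) ≤ Real.exp (-(w / 2)) := Real.exp_le_exp.2 (by linarith)
      have h6 : √(Real.pi / (2 * w)) * Real.exp (-w) ≤ 2 * Real.exp (-(w / 2)) :=
        mul_le_mul h4 h5 (Real.exp_pos _).le (by norm_num)
      have h7 : 0 ≤ (3 * √C1 + 3 * (C1 * √T) + C2) * Real.exp (-(w / 2)) := by positivity
      nlinarith [h3, h6, h7]
  · beta_reduce
    rw [← hw, abs_mul, abs_of_pos (by positivity : (0 : ℝ) < 2 * Real.pi), le_div_iff₀ hu]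
    have hkey : 2 * Real.pi * |KB1 T w| * u = w * |KB1 T w| := by rw [hw]; ring
    rw [hkey]
    rcases le_or_gt w 1 with h | h
    · have h3 := hK1 w hw0
      rw [le_div_iff₀ hw0] at h3
      have h4 := hlow w h
      have h5 : C1 * √T ≤ C1 * √T * (3 * Real.exp (-(w / 2))) := le_mul_of_one_le_right hs2 h4
      have h6 : 0 ≤ (3 * √C1 + 2 + C2) * Real.exp (-(w / 2)) := by positivity
      nlinarith [h3, h5, h6]
    · have h3 := hO3 T w h.le
      have h4 : w * Real.exp (-w) ≤ Real.exp (-(w / 2)) := by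
        have e : Real.exp (-w) = Real.exp (-(w / 2)) * Real.exp (-(w / 2)) := by
          rw [← Real.exp_add]
          congr 1
          ring
        have h5 : w * Real.exp (-(w / 2)) ≤ 1 := by
          have h6 : w ≤ Real.exp (w / 2) := by
            have h7 := Real.add_one_le_exp (w / 4)
            have h8 : Real.exp (w / 2) = Real.exp (w / 4) * Real.exp (w / 4) := by
              rw [← Real.exp_add]
              congr 1
              ring
            rw [h8]
            nlinarith [mul_self_nonneg (w / 4 - 1), h7]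
          rw [Real.exp_neg, ← div_eq_mul_inv, div_le_one (Real.exp_pos _)]
          exact h6
        rw [e, ← mul_assoc]
        exact mul_le_of_le_one_left hx0.le h5
      have h5 : w * |KB1 T w| ≤ C2 * Real.exp (-(w / 2)) := by
        calc w * |KB1 T w| ≤ w * (C2 * Real.exp (-w)) := mul_le_mul_of_nonneg_left h3 hw0.le
          _ = C2 * (w * Real.exp (-w)) := by ring
          _ ≤ C2 * Real.exp (-(w / 2)) := mul_le_mul_of_nonneg_left h4 hC2
      have h6 : 0 ≤ (3 * √C1 + 2 + 3 * (C1 * √T)) * Real.exp (-(w / 2)) := by positivity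
      nlinarith [h5, h6]

end Pool.Agent.Q68.L2Y
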